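import Pool.Agent.QDA.StmtsE
import Pool.Agent.Helper72_ACS.Law
import Pool.Agent.Helper38_ACX.Weg

/-!
# QDA: the mean over the sites of a torus, for an event at a site

`Bad U E η c ε r R x` is measurable in `U` and covariant under translations.
-/

set_option autoImplicit false

open MeasureTheory ProbabilityTheory Filter

open scoped ENNReal BigOperators NNReal

noncomputable section

namespace Pool.Agent.QDA.H16

open Pool.Agent.BED (Tor gau tr)
open Pool.Agent.ACX.H38 (gr_rs gr_cont')
open Pool.Agent.AND2B (Hr)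

variable {d M : ℕ} [NeZero M]

/-- THE MEAN OVER THE SITES, any covariant event -/
theorem mean_gen (v : ℝ≥0) (P : (Tor d M → ℝ) → Tor d M → Prop)
    (hP : ∀ U x, P U x ↔ P (tr x U) 0) (hm : ∀ x, MeasurableSet {U | P U x})
    {W : Set (Tor d M → ℝ)} (hW : MeasurableSet W) [∀ U, DecidablePred (P U)] :
    gau d M v {U | P U 0} ≤
      ∫⁻ U, W.indicator (fun U => ((Finset.univ.filter fun x : Tor d M => P U x).card : ℝ≥0∞) /
        (Fintype.card (Tor d M) : ℝ≥0∞)) U ∂(gau d M v) + gau d M v Wᶜ := by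
  set g := gau d M v with hg
  have hc0 : (Fintype.card (Tor d M) : ℝ≥0∞) ≠ 0 := by
    exact_mod_cast Fintype.card_ne_zero
  have hct : (Fintype.card (Tor d M) : ℝ≥0∞) ≠ ∞ := ENNReal.natCast_ne_top _
  have hx : ∀ x, g {U | P U x} = g {U | P U 0} := by
    intro x
    have h1 := (ACS.H72.mp_tr (d := d) (M := M) v x).measure_preimage (hm 0).nullMeasurableSet
    rw [← h1]
    congr 1
    ext U
    exact hP U x
  have h0 : g {U | P U 0} = (∑ x, g {U | P U x}) / (Fintype.card (Tor d M) : ℝ≥0∞) := by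
    rw [ENNReal.eq_div_iff hc0 hct, Finset.sum_congr rfl fun x _ => hx x, Finset.sum_const,
      Finset.card_univ, nsmul_eq_mul]
  have h1 : ∀ U, ((Finset.univ.filter fun x : Tor d M => P U x).card : ℝ≥0∞) =
      ∑ x : Tor d M, ({U | P U x} : Set (Tor d M → ℝ)).indicator
        (1 : (Tor d M → ℝ) → ℝ≥0∞) U := by
    intro U
    rw [Finset.card_filter]
    push_cast
    refine Finset.sum_congr rfl fun x _ => ?_
    by_cases h : P U x
    · rw [if_pos h, Set.indicator_of_mem (show U ∈ {U | P U x} from h)]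
      rfl
    · rw [if_neg h, Set.indicator_of_notMem (show U ∉ {U | P U x} from h)]
  have h2 : ∫⁻ U, ((Finset.univ.filter fun x : Tor d M => P U x).card : ℝ≥0∞) /
      (Fintype.card (Tor d M) : ℝ≥0∞) ∂g = g {U | P U 0} := by
    rw [h0]
    simp_rw [h1, ENNReal.div_eq_inv_mul]
    rw [lintegral_const_mul _ (Finset.measurable_fun_sum _ fun x _ =>
      measurable_one.indicator (hm x)), lintegral_finsetSum _ fun x _ =>
      measurable_one.indicator (hm x)]
    congr 1
    refine Finset.sum_congr rfl fun x _ => ?_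
    rw [lintegral_indicator_one (hm x)]
  have h3 : g {U | P U 0} ≤ ∫⁻ U, (W.indicator (fun U => ((Finset.univ.filter
      fun x : Tor d M => P U x).card : ℝ≥0∞) / (Fintype.card (Tor d M) : ℝ≥0∞)) U +
        (Wᶜ).indicator 1 U) ∂g := by
    rw [← h2]
    refine lintegral_mono fun U => ?_
    by_cases hV : U ∈ W
    · rw [Set.indicator_of_mem hV]
      exact le_self_add
    · rw [Set.indicator_of_notMem hV, Set.indicator_of_mem (show U ∈ Wᶜ from hV), zero_add]
      rw [Pi.one_apply]
      refine ENNReal.div_le_of_le_mul ?_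
      rw [one_mul]
      exact_mod_cast Finset.card_le_univ _
  refine h3.trans ?_
  rw [lintegral_add_right _ (measurable_one.indicator hW.compl), lintegral_indicator_one hW.compl]

/-- the resolvent of the translated potential -/
theorem gt_tr (U : Tor d M → ℝ) (E η : ℝ) (x y w : Tor d M) :
    Gt (tr x U) E η y w = Gt U E η (x + y) (x + w) := by
  unfold Gt
  rw [gr_rs, gr_rs, ACS.H72.rs_tr]

theorem sd_add (x y w : Fin d → ZMod M) : ANP.H61.sd (x + y) (x + w) = ANP.H61.sd y w := by
  unfold ANP.H61.sd ANP.H61.cd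
  congr 1
  funext i
  rw [Pi.add_apply, Pi.add_apply, add_sub_add_left_eq_sub]

/-- `Bad` is covariant -/
theorem bad_tr (U : Tor d M → ℝ) (E η c ε : ℝ) (r R : ℕ) (x : Tor d M) :
    Bad U E η c ε r R x ↔ Bad (tr x U) E η c ε r R 0 := by
  have h1 : Gt (tr x U) E η 0 0 = Gt U E η x x := by rw [gt_tr, add_zero]
  have h2 : ∀ (p : ℕ → Prop) [DecidablePred p],
      ∑ y, (if p (ANP.H61.sd (0 : Tor d M) y) then ‖Gt (tr x U) E η 0 y‖ ^ 2 else 0) =
        ∑ y, (if p (ANP.H61.sd x y) then ‖Gt U E η x y‖ ^ 2 else 0) := by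
    intro p _
    rw [← Equiv.sum_comp (Equiv.addLeft x)
      (fun y => if p (ANP.H61.sd x y) then ‖Gt U E η x y‖ ^ 2 else 0)]
    refine Finset.sum_congr rfl fun y _ => ?_
    have h3 : ANP.H61.sd x (x + y) = ANP.H61.sd (0 : Tor d M) y := by
      have := sd_add x 0 y
      rwa [add_zero] at this
    rw [Equiv.coe_addLeft, h3, gt_tr, add_zero]
  unfold Bad
  rw [h1, h2 (fun n => n < r), h2 (fun n => R ≤ n)]

/-- `Bad` is measurable -/
theorem bad_meas (E : ℝ) {η : ℝ} (hη : 0 < η) (c ε : ℝ) (r R : ℕ) (x : Tor d M) :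
    MeasurableSet {U : Tor d M → ℝ | Bad U E η c ε r R x} := by
  have hG : ∀ y, Measurable fun U : Tor d M → ℝ => Gt U E η x y :=
    fun y => (gr_cont' E hη x y).measurable
  have hi : Measurable fun U : Tor d M → ℝ => (Gt U E η x x).im :=
    Complex.measurable_im.comp (hG x)
  have hs : ∀ (p : ℕ → Prop) [DecidablePred p], Measurable fun U : Tor d M → ℝ =>
      η * ∑ y, (if p (ANP.H61.sd x y) then ‖Gt U E η x y‖ ^ 2 else 0) := by
    intro p _
    refine measurable_const.mul (Finset.measurable_fun_sum _ fun y _ => ?_)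
    split_ifs
    · exact (hG y).norm.pow_const 2
    · exact measurable_const
  have h : {U : Tor d M → ℝ | Bad U E η c ε r R x} =
      ({U | (Gt U E η x x).im < c} ∪ {U | 1 / c < (Gt U E η x x).im}) ∪
      ({U | ε < η * ∑ y, (if ANP.H61.sd x y < r then ‖Gt U E η x y‖ ^ 2 else 0)} ∪
        {U | ε < η * ∑ y, (if R ≤ ANP.H61.sd x y then ‖Gt U E η x y‖ ^ 2 else 0)}) := by
    ext U
    unfold Bad
    simp only [Set.mem_union, Set.mem_ofPred_eq]
    tauto
  rw [h]
  refine ((measurableSet_lt hi measurable_const).union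
    (measurableSet_lt measurable_const hi)).union
    ((measurableSet_lt measurable_const (hs fun n => n < r)).union
      (measurableSet_lt measurable_const (hs fun n => R ≤ n)))

/-- a constant shift of the potential is a shift of the energy -/
theorem gt_shift (U : Tor d M → ℝ) (t E η : ℝ) : Gt (fun x => U x - t) E η = Gt U (E + t) η := by
  have h : Hr (fun x => U x - t) E = Hr U (E + t) := by
    unfold Hr
    congr 1
    congr 1
    funext x
    ring
  unfold Gt
  rw [h]

theorem bad_shift (U : Tor d M → ℝ) (t E η c ε : ℝ) (r R : ℕ) (x : Tor d M) :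
    Bad (fun x => U x - t) E η c ε r R x ↔ Bad U (E + t) η c ε r R x := by
  unfold Bad
  rw [gt_shift]

end Pool.Agent.QDA.H16
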