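import Pool.Agent.Helper16_QDA.PhqE
import Pool.Agent.QDA.StmtsM

/-!
# QDA, row PHM: the protocol applied to the bad sites (`BadM`), one environment
-/

set_option autoImplicit false

open MeasureTheory ProbabilityTheory Filter

open scoped ENNReal BigOperators NNReal

noncomputable section

namespace Pool.Agent.QDA.H16

open Pool.Agent.BED (Tor gau tr)
open Pool.Agent.ACX.H38 (gr_rs gr_cont' psi psi_nonneg psi_le psi_meas psi_int2 psi_integrable)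
open Pool.Agent.AND2B (Hr WL)
open Pool.Agent.ANP (Cfg gm)
open Pool.Agent.AHH (toE bud Al St ww Ef FB)
open Pool.Agent.ACX.CORE (Fields core1)
open Pool.Agent.ACX (H34.Num8)

/-- `BadM` is covariant -/
theorem badM_tr {d M : ℕ} [NeZero M] (U : Tor d M → ℝ) (E η : ℝ) (m : ℂ) (ε : ℝ) (r R : ℕ)
    (x : Tor d M) : BadM U E η m ε r R x ↔ BadM (tr x U) E η m ε r R 0 := by
  have h1 : Gt (tr x U) E η 0 0 = Gt U E η x x := by rw [gt_tr, add_zero]
  have h2 : ∀ (p : ℕ → Prop) [DecidablePred p],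
      ∑ y, (if p (ANP.H61.sd (0 : Tor d M) y) then ‖Gt (tr x U) E η 0 y‖ ^ 2 else 0) =
        ∑ y, (if p (ANP.H61.sd x y) then ‖Gt U E η x y‖ ^ 2 else 0) := by
    intro p _
    rw [← Equiv.sum_comp (Equiv.addLeft x)
      (fun y => if p (ANP.H61.sd x y) then ‖Gt U E η x y‖ ^ 2 else 0)]
    refine Finset.sum_congr rfl fun y _ => ?_
    have h3 : ANP.H61.sd x (x + y) = ANP.H61.sd (0 : Tor d M) y := by
      have := sd_add x 0 y
      rwa [add_zero] at this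
    rw [Equiv.coe_addLeft, h3, gt_tr, add_zero]
  unfold BadM
  rw [h1, h2 (fun n => n < r), h2 (fun n => R ≤ n)]

/-- `BadM` is measurable -/
theorem badM_meas {d M : ℕ} [NeZero M] (E : ℝ) {η : ℝ} (hη : 0 < η) (m : ℂ) (ε : ℝ) (r R : ℕ)
    (x : Tor d M) : MeasurableSet {U : Tor d M → ℝ | BadM U E η m ε r R x} := by
  have hG : ∀ y, Measurable fun U : Tor d M → ℝ => Gt U E η x y :=
    fun y => (gr_cont' E hη x y).measurable
  have hi : Measurable fun U : Tor d M → ℝ => ‖Gt U E η x x - m‖ :=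
    ((hG x).sub measurable_const).norm
  have hs : ∀ (p : ℕ → Prop) [DecidablePred p], Measurable fun U : Tor d M → ℝ =>
      η * ∑ y, (if p (ANP.H61.sd x y) then ‖Gt U E η x y‖ ^ 2 else 0) := by
    intro p _
    refine measurable_const.mul (Finset.measurable_fun_sum _ fun y _ => ?_)
    split_ifs
    · exact (hG y).norm.pow_const 2
    · exact measurable_const
  have h : {U : Tor d M → ℝ | BadM U E η m ε r R x} =
      {U | ε < ‖Gt U E η x x - m‖} ∪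
      ({U | ε < η * ∑ y, (if ANP.H61.sd x y < r then ‖Gt U E η x y‖ ^ 2 else 0)} ∪
        {U | ε < η * ∑ y, (if R ≤ ANP.H61.sd x y then ‖Gt U E η x y‖ ^ 2 else 0)}) := by
    ext U
    unfold BadM
    simp only [Set.mem_union, Set.mem_ofPred_eq]
  rw [h]
  exact (measurableSet_lt measurable_const hi).union
    ((measurableSet_lt measurable_const (hs fun n => n < r)).union
      (measurableSet_lt measurable_const (hs fun n => R ≤ n)))

theorem badM_shift {d M : ℕ} [NeZero M] (U : Tor d M → ℝ) (t E η : ℝ) (m : ℂ) (ε : ℝ)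
    (r R : ℕ) (x : Tor d M) :
    BadM (fun x => U x - t) E η m ε r R x ↔ BadM U (E + t) η m ε r R x := by
  unfold BadM
  rw [gt_shift]

/-- from the last configuration to the hypotheses of `EdmStmt` -/
theorem end_edm {d : ℕ} (V : AND2B.Env d) {c C K δ ε : ℝ} (hd : 3 ≤ d) (hc : 0 < c) (hC : 1 ≤ C)
    (hth : 1 / 2 ≤ V.th) (hth1 : V.th < 1) (hw : 0 < V.w) (hS : V.Sc)
    (hE : ∀ (μ j R : ℕ) (T : Cfg (Tor d (2 ^ μ))) (E e₀ f D₀ D₁ : ℝ) (m₀ : ℂ)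
      (U : Tor d (2 ^ μ) → ℝ),
    0 < e₀ → 0 < f → e₀ ≤ δ * f → c / 2 ≤ m₀.im → ‖m₀‖ ≤ 2 * C →
    (∀ x, (T.s x : ℝ) = 0 ∨ (T.s x : ℝ) = f) →
    (∀ x, (T.s x : ℝ) = f → ‖T.mb x - m₀‖ ≤ δ ∧ ‖AND2B.net E e₀ T x x - T.mb x‖ ≤ δ) →
    (∀ x, (T.s x : ℝ) = f → U x = T.V x - f * m₀.re) →
    (∀ x, (T.s x : ℝ) = 0 → |U x - T.V x| ≤ 2 * C * f) →
    (∃ (εl εu : Tor d (2 ^ μ) → ℝ) (bl bu : LTG.Bd d (2 ^ μ) → ℝ),
      LTG.Fm LTG.sT LTG.tT (Al T) (ww e₀ T) εl εu bl bu (LTG.qd (Ef E e₀ T)) ∧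
      (∀ x ∈ Al T, 0 ≤ εl x ∧ εl x ≤ δ) ∧ ∀ e, D₀ ≤ bl e ∧ bu e ≤ D₁) →
    0 < D₀ → j + 1 ≤ μ → 1 ≤ R → K * f * 4 ^ j ≤ D₀ → K * 2 ^ j ≤ 2 ^ μ → K * D₁ ≤ f * R ^ 2 →
    2 * ((Finset.univ.filter fun x => (T.s x : ℝ) = 0).card : ℝ) ≤ ((2 : ℝ) ^ μ) ^ d →
    (∀ [DecidablePred (BadM U E (f * m₀.im) m₀ ε (2 ^ j) R)],
    ((Finset.univ.filter fun x => BadM U E (f * m₀.im) m₀ ε (2 ^ j) R x).card : ℝ) ≤
      ((Finset.univ.filter fun x => (T.s x : ℝ) = 0).card : ℝ) + ε * ((2 : ℝ) ^ μ) ^ d +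
        K * ∑ b ∈ Finset.univ.filter fun x => (T.s x : ℝ) = 0, (Gt U E (f * m₀.im) b b).im))
    (h1 : 3 * (V.w : ℝ) ^ (1 / 20 : ℝ) ≤ δ / 2)
    (h2 : ((V.cl (V.kk (V.N + 1)) : ℝ)) ^ (1 / 8 : ℝ) ≤ δ)
    (h3 : 2 * ((V.cl (V.kk (V.N + 1)) : ℝ)) ^ (AHH.ka V / 2) ≤ δ)
    (h4 : 3 * (V.w : ℝ) ^ (AHH.ka V / 4) ≤ 1 / 2)
    (he0 : 0 < V.e₀) (he1 : V.e₀ ≤ δ * V.cl (V.kk (V.N + 1)))
    (m₀ : ℂ) (hm1 : c / 2 ≤ m₀.im) (hm2 : ‖m₀‖ ≤ 2 * C) (hm3 : ‖V.m - m₀‖ ≤ δ / 2)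
    (j R : ℕ) (hj : j + 1 ≤ V.μ) (hR : 1 ≤ R)
    (hj1 : K * V.cl (V.kk (V.N + 1)) * 4 ^ j ≤ c * (V.w : ℝ) ^ (8 * AHH.es - 1) / 2)
    (hj2 : K * 2 ^ j ≤ (2 : ℝ) ^ V.μ)
    (hR1 : K * (8 * C ^ 3 / V.w) ≤ V.cl (V.kk (V.N + 1)) * (R : ℝ) ^ 2)
    (T : Cfg V.X) (run : Finset V.X) (n : ℕ)
    (hT : St (toE V c C) (bud V) n (V.kk (V.N + 1)) T run)
    (hFc : V.Fc (V.N + 1) (V.kk (V.N + 1)) ∅ T run) (hdead : ∀ x, x ∉ run → T.s x = 0)
    : ∀ [DecidablePred (BadM T.V (V.E + V.cl (V.kk (V.N + 1)) * m₀.re)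
      (V.cl (V.kk (V.N + 1)) * m₀.im) m₀ ε (2 ^ j) R)],
    ((Finset.univ.filter fun x => BadM T.V (V.E + V.cl (V.kk (V.N + 1)) * m₀.re)
      (V.cl (V.kk (V.N + 1)) * m₀.im) m₀ ε (2 ^ j) R x).card : ℝ) ≤
      ε * ((2 : ℝ) ^ V.μ) ^ d + ∑ b ∈ Finset.univ \ run,
        (1 + K * psi (V.E + V.cl (V.kk (V.N + 1)) * m₀.re) (V.cl (V.kk (V.N + 1)) * m₀.im)
          T.V b) := by
  classical
  have hth0 : 0 < V.th := lt_of_lt_of_le (by norm_num) hth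
  set f : ℝ≥0 := V.cl (V.kk (V.N + 1)) with hf
  have hfp : 0 < f := AHH.cl_pos V hw hth0 _
  have hfp' : (0 : ℝ) < f := by exact_mod_cast hfp
  have hrun : ∀ x ∈ run, T.s x = f := by
    intro x hx
    have := hFc.runs x hx
    rwa [if_neg (Finset.notMem_empty x)] at this
  have hs : ∀ x, (T.s x : ℝ) = f ↔ x ∈ run := by
    intro x
    constructor
    · intro h
      by_contra hx
      rw [hdead x hx] at h
      push_cast at h
      exact absurd h.symm hfp'.ne'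
    · intro hx
      rw [hrun x hx]
  have hs0 : ∀ x, (T.s x : ℝ) = 0 ↔ x ∉ run := by
    intro x
    constructor
    · intro h hx
      rw [hrun x hx] at h
      exact hfp'.ne' h
    · intro hx
      rw [hdead x hx]
      rfl
  have hal : ∀ x, x ∈ Al T ↔ x ∈ run := by
    intro x
    constructor
    · intro h
      have h5 : 0 < T.s x := by simpa [Al] using h
      by_contra hx
      rw [hdead x hx] at h5
      exact lt_irrefl _ h5
    · exact fun hx => hT.alv hx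
  have hfilt : (Finset.univ.filter fun x => (T.s x : ℝ) = 0) = Finset.univ \ run := by
    ext x
    rw [Finset.mem_filter, Finset.mem_sdiff, hs0]
  have hdel : (AHH.qq V n (V.kk (V.N + 1))).del ≤ δ / 2 :=
    ((AHH.gr_bd V hth1.le (by norm_num : (0 : ℝ) < 1 / 20) n _).2).trans h1
  have hrho0 : 0 ≤ (AHH.qq V n (V.kk (V.N + 1))).rho := by
    have hka : 0 < AHH.ka V / 4 := by
      unfold AHH.ka
      positivity
    exact (Real.rpow_nonneg (NNReal.coe_nonneg _) _).trans (AHH.gr_bd V hth1.le hka n _).1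
  have hrho : (AHH.qq V n (V.kk (V.N + 1))).rho ≤ 1 / 2 := by
    have hka : 0 < AHH.ka V / 4 := by
      unfold AHH.ka
      positivity
    exact ((AHH.gr_bd V hth1.le hka n _).2).trans h4
  have heps : (AHH.qq V n (V.kk (V.N + 1))).eps ≤ δ := by
    refine le_trans ?_ h3
    show (V.cl (V.kk (V.N + 1)) : ℝ) ^ (AHH.ka V / 2) * (2 - V.sg n ^ AHH.ka V) ≤ _
    have h5 : 0 ≤ V.sg n ^ AHH.ka V := Real.rpow_nonneg (NNReal.coe_nonneg _) _
    have h6 : 0 ≤ (V.cl (V.kk (V.N + 1)) : ℝ) ^ (AHH.ka V / 2) :=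
      Real.rpow_nonneg (NNReal.coe_nonneg _) _
    nlinarith
  obtain ⟨εl, εu, bl, bu, hFm, hεl, hb⟩ := hT.frm
  have hD₀ : 0 < c * (V.w : ℝ) ^ (8 * AHH.es - 1) / 2 := by
    have : (0 : ℝ) < V.w := by exact_mod_cast hw
    positivity
  have hw' : (0 : ℝ) < V.w := by exact_mod_cast hw
  have h := hE V.μ j R T V.E V.e₀ f (c * (V.w : ℝ) ^ (8 * AHH.es - 1) / 2) (8 * C ^ 3 / V.w) m₀
    (fun x => T.V x - f * m₀.re) he0 hfp' he1 hm1 hm2
    (fun x => by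
      by_cases hx : x ∈ run
      · exact Or.inr ((hs x).2 hx)
      · exact Or.inl ((hs0 x).2 hx))
    (fun x hx => ?_) (fun x _ => rfl) (fun x _ => ?_) ⟨εl, εu, bl, bu, hFm, ?_, ?_⟩ hD₀ hj hR hj1
    hj2 hR1 ?_
  · intro inst
    have h7 := h
    rw [hfilt] at h7
    refine le_trans (Nat.cast_le.2 (Finset.card_le_card fun x hx => ?_)) (h7.trans (le_of_eq ?_))
    · have hx2 := (@Finset.mem_filter _ _ inst _ _).1 hx
      refine Finset.mem_filter.2 ⟨Finset.mem_univ _, ?_⟩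
      rw [badM_shift]
      exact hx2.2
    have e2 : ∀ b, (Gt (fun x => T.V x - f * m₀.re) V.E (f * m₀.im) b b).im =
        psi (V.E + f * m₀.re) (f * m₀.im) T.V b := by
      intro b
      rw [gt_shift]
      rfl
    simp only [e2]
    rw [Finset.sum_add_distrib, Finset.sum_const, nsmul_eq_mul, mul_one, ← Finset.mul_sum]
    ring
  · have hx' := (hs x).1 hx
    have hg := hT.gau x ((hal x).2 hx')
    refine ⟨?_, ?_⟩
    · have h5 : ‖T.mb x - V.m‖ ≤ δ / 2 := hg.2.2.trans hdel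
      calc ‖T.mb x - m₀‖ = ‖(T.mb x - V.m) + (V.m - m₀)‖ := by congr 1; ring
        _ ≤ ‖T.mb x - V.m‖ + ‖V.m - m₀‖ := norm_add_le _ _
        _ ≤ δ := by linarith
    · exact (hT.mis x hx').trans h2
  · have h5 : |m₀.re| ≤ 2 * C := (Complex.abs_re_le_norm m₀).trans hm2
    have e : T.V x - (f : ℝ) * m₀.re - T.V x = -((f : ℝ) * m₀.re) := by ring
    rw [e, abs_neg, abs_mul, abs_of_pos hfp', mul_comm]
    gcongr
  · intro x hx
    have h5 := hεl x hx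
    refine ⟨h5.1, h5.2.1.trans ?_⟩
    simp only [if_pos ((hal x).1 hx)]
    exact heps
  · intro e
    have h5 := hb e
    have hD : (toE V c C).D₀ = c * (V.w : ℝ) ^ (8 * AHH.es - 1) := rfl
    have hD1 : (toE V c C).D₁ = 4 * C ^ 3 / V.w := rfl
    rw [hD, hD1] at h5
    have h6 : 0 < c * (V.w : ℝ) ^ (8 * AHH.es - 1) := by positivity
    have h7 : 0 < 4 * C ^ 3 / (V.w : ℝ) := by positivity
    have h8 : ((bud V).q n (V.kk (V.N + 1))).rho ≤ 1 / 2 := hrho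
    constructor
    · refine le_trans ?_ h5.1
      nlinarith
    · refine h5.2.2.trans ?_
      have e : (8 : ℝ) * C ^ 3 / V.w = 4 * C ^ 3 / V.w * 2 := by ring
      rw [e]
      nlinarith
  · have h5 := ACX.H48.dead_fc hd hS (le_refl (V.N + 1)) hFc
    have h6 : (Finset.univ.filter fun x => (T.s x : ℝ) = 0) =
        Finset.univ.filter fun x => T.s x = 0 := by
      ext x
      rw [Finset.mem_filter, Finset.mem_filter]
      norm_cast
    rw [h6]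
    have h7 : (Fintype.card (Tor d (2 ^ V.μ)) : ℝ) = ((2 : ℝ) ^ V.μ) ^ d := by
      rw [Fintype.card_fun, ZMod.card, Fintype.card_fin]
      push_cast
      rfl
    have h8 : (16 : ℝ) * ((Finset.univ.filter fun x => T.s x = 0).card : ℝ) ≤
        (Fintype.card (Tor d (2 ^ V.μ)) : ℝ) := by exact_mod_cast h5
    rw [h7] at h8
    have h9 : (0 : ℝ) ≤ ((Finset.univ.filter fun x => T.s x = 0).card : ℝ) := Nat.cast_nonneg _
    linarith

open Classical in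
/-- the number of bad sites is measurable -/
theorem cardM_meas {d M : ℕ} [NeZero M] (E : ℝ) {η : ℝ} (hη : 0 < η) (m : ℂ) (ε : ℝ) (r R : ℕ) :
    Measurable fun U : Tor d M → ℝ =>
      ((Finset.univ.filter fun x : Tor d M => BadM U E η m ε r R x).card : ℝ) := by
  have h : (fun U : Tor d M → ℝ =>
      ((Finset.univ.filter fun x : Tor d M => BadM U E η m ε r R x).card : ℝ)) = fun U =>
      ∑ x : Tor d M, ({U | BadM U E η m ε r R x} : Set (Tor d M → ℝ)).indicator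
        (fun _ => (1 : ℝ)) U := by
    funext U
    rw [Finset.card_filter]
    push_cast
    refine Finset.sum_congr rfl fun x _ => ?_
    by_cases h : BadM U E η m ε r R x
    · rw [if_pos h, Set.indicator_of_mem (show U ∈ {U | BadM U E η m ε r R x} from h)]
    · rw [if_neg h, Set.indicator_of_notMem (show U ∉ {U | BadM U E η m ε r R x} from h)]
  rw [h]
  exact Finset.measurable_fun_sum _ fun x _ => measurable_const.indicator (badM_meas E hη m ε r R x)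

open Classical in
/-- PHM, ONE ENVIRONMENT -/
theorem phmE (hE : EdmStmt) (d : ℕ) (c C ε : ℝ) (hd : 3 ≤ d) (hc : 0 < c) (hc1 : c ≤ 1)
    (hC : 1 ≤ C) (hε : 0 < ε) :
    ∃ K δ : ℝ, 1 ≤ K ∧ 0 < δ ∧ ∀ (a : ℝ) (V : AND2B.Env d) (δ₁ : ℝ) (π c' W : ℕ → ℝ),
      1 / 2 ≤ V.th → V.th < 1 → 0 < V.w → V.Sc → 1 ≤ V.N →
      Fields (AHH.Z d a AHH.es c C) V →
      H34.Num8 d V.th V.J V.β V.w V.N V.μ V.kk V.l V.r 1 (2 * K) π c' W →
      ∑ j ∈ Finset.range (V.G.N + 2), W j *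
        ∑ B ∈ ({B | V.G.bl j B = B} : Finset V.X), ANP.H72.QQ V.G.ch V.G.J (fun i => π i.1) j B ≤ δ₁ →
      0 ≤ δ₁ →
      3 * (V.w : ℝ) ^ (1 / 20 : ℝ) ≤ δ / 2 →
      ((V.cl (V.kk (V.N + 1)) : ℝ)) ^ (1 / 8 : ℝ) ≤ δ →
      2 * ((V.cl (V.kk (V.N + 1)) : ℝ)) ^ (AHH.ka V / 2) ≤ δ →
      3 * (V.w : ℝ) ^ (AHH.ka V / 4) ≤ 1 / 2 →
      0 < V.e₀ → V.e₀ ≤ δ * V.cl (V.kk (V.N + 1)) →
      ∀ m₀ : ℂ, c / 2 ≤ m₀.im → ‖m₀‖ ≤ 2 * C → ‖V.m - m₀‖ ≤ δ / 2 →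
      ∀ j R : ℕ, j + 1 ≤ V.μ → 1 ≤ R →
      K * V.cl (V.kk (V.N + 1)) * 4 ^ j ≤ c * (V.w : ℝ) ^ (8 * AHH.es - 1) / 2 →
      K * 2 ^ j ≤ (2 : ℝ) ^ V.μ →
      K * (8 * C ^ 3 / V.w) ≤ V.cl (V.kk (V.N + 1)) * (R : ℝ) ^ 2 →
      ∀ ρ₀ : ℝ, (∀ V₀ : V.X → ℝ, (∀ x, |V₀ x| ≤ ρ₀) → ∃ m₁ : V.X → ℂ,
        (AHH.Z d a AHH.es c C).HS V 0 0 ⟨V₀, fun _ => V.cl 0, m₁⟩ Finset.univ) →
      ∫⁻ U, ENNReal.ofReal (((Finset.univ.filter fun x : Tor d (2 ^ V.μ) =>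
          BadM U (V.E + V.cl (V.kk (V.N + 1)) * m₀.re) (V.cl (V.kk (V.N + 1)) * m₀.im) m₀ ε
            (2 ^ j) R x).card : ℝ) / ((2 : ℝ) ^ V.μ) ^ d) ∂(gau d (2 ^ V.μ) V.w) ≤
        ENNReal.ofReal (ε + δ₁ + (gm (fun _ : V.X => 0)
          (fun _ => V.cl (V.kk (V.N + 1)))).real {V₀ | ∃ x, ρ₀ < |V₀ x|}) +
        gau d (2 ^ V.μ) V.w {U | ¬ WL V.E V.L U} := by
  obtain ⟨K, δ, hK, hδ, h⟩ := hE d (c / 2) (2 * C) ε hd (by positivity) (by linarith)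
    (by linarith) hε
  refine ⟨K, δ, hK, hδ, ?_⟩
  intro a V δ₁ π c' W hth hth1 hw hS hN hF hn hsum hδ₁ h1 h2 h3 h4 he0 he1 m₀ hm1 hm2 hm3 j R hj
    hR hj1 hj2 hR1 ρ₀ hini
  have hth0 : 0 < V.th := lt_of_lt_of_le (by norm_num) hth
  have hfp : 0 < V.cl (V.kk (V.N + 1)) := AHH.cl_pos V hw hth0 _
  have hfp' : (0 : ℝ) < V.cl (V.kk (V.N + 1)) := by exact_mod_cast hfp
  have hm0 : 0 < m₀.im := lt_of_lt_of_le (by positivity) hm1
  have hη : 0 < (V.cl (V.kk (V.N + 1)) : ℝ) * m₀.im := mul_pos hfp' hm0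
  have hK0 : 0 < K := lt_of_lt_of_le one_pos hK
  have hX : (0 : ℝ) < ((2 : ℝ) ^ V.μ) ^ d := by positivity
  have hXc : (Fintype.card (Tor d (2 ^ V.μ)) : ℝ) = ((2 : ℝ) ^ V.μ) ^ d := by
    rw [Fintype.card_fun, ZMod.card, Fintype.card_fin]
    push_cast
    rfl
  have hcard : ∀ U : Tor d (2 ^ V.μ) → ℝ, ((Finset.univ.filter fun x : Tor d (2 ^ V.μ) =>
          BadM U (V.E + V.cl (V.kk (V.N + 1)) * m₀.re) (V.cl (V.kk (V.N + 1)) * m₀.im) m₀ ε
            (2 ^ j) R x).card : ℝ) / ((2 : ℝ) ^ V.μ) ^ d ≤ 1 := by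
    intro U
    rw [div_le_one hX, ← hXc]
    exact_mod_cast Finset.card_le_univ _
  have hcm := cardM_meas (d := d) (M := 2 ^ V.μ) (V.E + V.cl (V.kk (V.N + 1)) * m₀.re) hη m₀ ε
    (2 ^ j) R
  have hWm : MeasurableSet {U : Tor d (2 ^ V.μ) → ℝ | WL V.E V.L U} :=
    AND2B.H99.msw d (2 ^ V.μ) V.E V.L
  have key := core1 (AHH.Z d a AHH.es c C) V hth hth1 hw hS hN hF (ca := 1) (cb := 2 * K) hn hsum
    (K := (1 + K * (1 / (V.cl (V.kk (V.N + 1)) * m₀.im))) / ((2 : ℝ) ^ V.μ) ^ d) (e := ε)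
    (fun U => ({U : Tor d (2 ^ V.μ) → ℝ | WL V.E V.L U}).indicator
      (fun U => ((Finset.univ.filter fun x : Tor d (2 ^ V.μ) =>
          BadM U (V.E + V.cl (V.kk (V.N + 1)) * m₀.re) (V.cl (V.kk (V.N + 1)) * m₀.im) m₀ ε
            (2 ^ j) R x).card : ℝ) / ((2 : ℝ) ^ V.μ) ^ d) U)
    (fun x U => (1 + K * psi (V.E + V.cl (V.kk (V.N + 1)) * m₀.re)
      (V.cl (V.kk (V.N + 1)) * m₀.im) U x) / ((2 : ℝ) ^ V.μ) ^ d)
    ((hcm.div_const _).indicator hWm)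
    (fun U => by
      refine ⟨Set.indicator_nonneg (fun _ _ => by positivity) U, ?_⟩
      by_cases hU : U ∈ {U : Tor d (2 ^ V.μ) → ℝ | WL V.E V.L U}
      · rw [Set.indicator_of_mem hU]
        exact hcard U
      · rw [Set.indicator_of_notMem hU]
        exact zero_le_one)
    (fun x => ((measurable_const.add (measurable_const.mul (psi_meas _ hη x))).div_const _))
    (fun x U => by
      have h5 := psi_nonneg (V.E + V.cl (V.kk (V.N + 1)) * m₀.re) hη U x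
      have h6 := psi_le (V.E + V.cl (V.kk (V.N + 1)) * m₀.re) hη U x
      refine ⟨by positivity, ?_⟩
      gcongr)
    hε.le hδ₁
    (fun x a' r hr => by
      have h5 := psi_int2 (V.E + V.cl (V.kk (V.N + 1)) * m₀.re) hη a' r x hr
      have h6 : ∫ U, (1 + K * psi (V.E + V.cl (V.kk (V.N + 1)) * m₀.re)
          (V.cl (V.kk (V.N + 1)) * m₀.im) U x) / ((2 : ℝ) ^ V.μ) ^ d ∂(gm a' r) =
          (1 + K * ∫ U, psi (V.E + V.cl (V.kk (V.N + 1)) * m₀.re)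
          (V.cl (V.kk (V.N + 1)) * m₀.im) U x ∂(gm a' r)) / ((2 : ℝ) ^ V.μ) ^ d := by
        rw [integral_div, integral_add (integrable_const _)
          ((psi_integrable _ hη x _).const_mul K), integral_const_mul, integral_const,
          probReal_univ, one_smul]
      rw [h6]
      refine div_le_div_of_nonneg_right ?_ hX.le
      have h7 := mul_le_mul_of_nonneg_left h5 hK0.le
      have h8 : 2 * K / Real.sqrt (r x) = K * (2 / Real.sqrt (r x)) := by ring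
      rw [h8]
      linarith)
    (fun U hU => Set.indicator_of_notMem hU _)
    ρ₀ hini
    (fun T run hT hFc hdead => by
      have h5 := end_edm V (K := K) (δ := δ) (ε := ε) hd hc hC hth hth1 hw hS
        (fun μ j R T E e₀ f D₀ D₁ m₀ U a1 a2 a3 a4 a5 a6 a7 a8 a9 a10 a11 a12 a13 a14 a15 a16
          a17 inst => by
            have h6 := h μ j R T E e₀ f D₀ D₁ m₀ U a1 a2 a3 a4 a5 a6 a7 a8 a9 a10 a11 a12 a13
              a14 a15 a16 a17
            refine le_trans (Nat.cast_le.2 (Finset.card_le_card fun x hx => ?_)) h6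
            have hx2 := (@Finset.mem_filter _ _ inst _ _).1 hx
            exact (@Finset.mem_filter _ _ (fun _ => Classical.propDecidable _) _ _).2
              ⟨Finset.mem_univ _, hx2.2⟩)
        h1 h2 h3 h4 he0 he1 m₀ hm1 hm2 hm3 j R hj hR hj1 hj2 hR1 T run (V.N + 1) hT hFc hdead
      have h7 : ∑ x ∈ Finset.univ \ run, (1 + K * psi (V.E + V.cl (V.kk (V.N + 1)) * m₀.re)
          (V.cl (V.kk (V.N + 1)) * m₀.im) T.V x) / ((2 : ℝ) ^ V.μ) ^ d =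
          (∑ x ∈ Finset.univ \ run, (1 + K * psi (V.E + V.cl (V.kk (V.N + 1)) * m₀.re)
          (V.cl (V.kk (V.N + 1)) * m₀.im) T.V x)) / ((2 : ℝ) ^ V.μ) ^ d := by
        rw [Finset.sum_div]
      rw [h7]
      refine le_trans (Set.indicator_le_self' (fun _ _ => by positivity) T.V) ?_
      rw [div_le_iff₀ hX, add_mul, div_mul_cancel₀ _ hX.ne']
      exact h5)
  have hprob : IsProbabilityMeasure (gau d (2 ^ V.μ) V.w) := by
    unfold gau
    infer_instance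
  have hgg : gm (fun _ : V.X => 0) (fun _ => V.w) = gau d (2 ^ V.μ) V.w := rfl
  rw [hgg] at key
  have hφm : Measurable fun U : Tor d (2 ^ V.μ) → ℝ =>
      ({U : Tor d (2 ^ V.μ) → ℝ | WL V.E V.L U}).indicator
      (fun U => ((Finset.univ.filter fun x : Tor d (2 ^ V.μ) =>
          BadM U (V.E + V.cl (V.kk (V.N + 1)) * m₀.re) (V.cl (V.kk (V.N + 1)) * m₀.im) m₀ ε
            (2 ^ j) R x).card : ℝ) / ((2 : ℝ) ^ V.μ) ^ d) U := (hcm.div_const _).indicator hWm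
  have hφ0 : ∀ U : Tor d (2 ^ V.μ) → ℝ, 0 ≤ ({U : Tor d (2 ^ V.μ) → ℝ | WL V.E V.L U}).indicator
      (fun U => ((Finset.univ.filter fun x : Tor d (2 ^ V.μ) =>
          BadM U (V.E + V.cl (V.kk (V.N + 1)) * m₀.re) (V.cl (V.kk (V.N + 1)) * m₀.im) m₀ ε
            (2 ^ j) R x).card : ℝ) / ((2 : ℝ) ^ V.μ) ^ d) U :=
    fun U => Set.indicator_nonneg (fun _ _ => by positivity) U
  have hφ1 : ∀ U : Tor d (2 ^ V.μ) → ℝ, ({U : Tor d (2 ^ V.μ) → ℝ | WL V.E V.L U}).indicator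
      (fun U => ((Finset.univ.filter fun x : Tor d (2 ^ V.μ) =>
          BadM U (V.E + V.cl (V.kk (V.N + 1)) * m₀.re) (V.cl (V.kk (V.N + 1)) * m₀.im) m₀ ε
            (2 ^ j) R x).card : ℝ) / ((2 : ℝ) ^ V.μ) ^ d) U ≤ 1 := by
    intro U
    by_cases hU : U ∈ {U : Tor d (2 ^ V.μ) → ℝ | WL V.E V.L U}
    · rw [Set.indicator_of_mem hU]
      exact hcard U
    · rw [Set.indicator_of_notMem hU]
      exact zero_le_one
  have hint : Integrable (fun U : Tor d (2 ^ V.μ) → ℝ =>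
      ({U : Tor d (2 ^ V.μ) → ℝ | WL V.E V.L U}).indicator
      (fun U => ((Finset.univ.filter fun x : Tor d (2 ^ V.μ) =>
          BadM U (V.E + V.cl (V.kk (V.N + 1)) * m₀.re) (V.cl (V.kk (V.N + 1)) * m₀.im) m₀ ε
            (2 ^ j) R x).card : ℝ) / ((2 : ℝ) ^ V.μ) ^ d) U) (gau d (2 ^ V.μ) V.w) := by
    refine Integrable.of_bound hφm.aestronglyMeasurable 1 (Filter.Eventually.of_forall fun U => ?_)
    rw [Real.norm_eq_abs, abs_of_nonneg (hφ0 U)]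
    exact hφ1 U
  refine (lintegral_mono (g := fun U : Tor d (2 ^ V.μ) → ℝ => ENNReal.ofReal
    (({U : Tor d (2 ^ V.μ) → ℝ | WL V.E V.L U}).indicator
      (fun U => ((Finset.univ.filter fun x : Tor d (2 ^ V.μ) =>
          BadM U (V.E + V.cl (V.kk (V.N + 1)) * m₀.re) (V.cl (V.kk (V.N + 1)) * m₀.im) m₀ ε
            (2 ^ j) R x).card : ℝ) / ((2 : ℝ) ^ V.μ) ^ d) U) +
      ({U : Tor d (2 ^ V.μ) → ℝ | ¬ WL V.E V.L U}).indicator 1 U) fun U => ?_).trans ?_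
  · beta_reduce
    by_cases hU : U ∈ {U : Tor d (2 ^ V.μ) → ℝ | WL V.E V.L U}
    · rw [Set.indicator_of_mem hU]
      exact le_self_add
    · rw [Set.indicator_of_mem (show U ∈ {U : Tor d (2 ^ V.μ) → ℝ | ¬ WL V.E V.L U} from hU)]
      refine le_trans ?_ le_add_self
      rw [Pi.one_apply, ← ENNReal.ofReal_one]
      exact ENNReal.ofReal_le_ofReal (hcard U)
  · have hWc : MeasurableSet {U : Tor d (2 ^ V.μ) → ℝ | ¬ WL V.E V.L U} := hWm.compl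
    rw [lintegral_add_right _ (measurable_one.indicator hWc), lintegral_indicator_one hWc]
    refine add_le_add ?_ le_rfl
    rw [← ofReal_integral_eq_lintegral_ofReal hint (Filter.Eventually.of_forall hφ0)]
    exact ENNReal.ofReal_le_ofReal key

end Pool.Agent.QDA.H16
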