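import Pool.Agent.Helper16_QDA.Mean
import Pool.Agent.Helper16_CORE.Env0
import Pool.Agent.Helper48_ACX.P6
import Pool.Agent.Helper99_AND2B.WLP
import Pool.Agent.AHH.Z

/-!
# QDA, row PHQ: the protocol applied to the bad sites, one environment
-/

set_option autoImplicit false

open MeasureTheory ProbabilityTheory Filter

open scoped ENNReal BigOperators NNReal

noncomputable section

namespace Pool.Agent.QDA.H16

open Pool.Agent.BED (Tor gau tr)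
open Pool.Agent.ACX.H38 (gr_rs gr_cont' psi psi_nonneg psi_le psi_meas psi_int2 psi_integrable)
open Pool.Agent.AND2B (Hr WL)
open Pool.Agent.ANP (Cfg gm)
open Pool.Agent.AHH (toE bud Al St ww Ef FB)
open Pool.Agent.ACX.CORE (Fields core1)
open Pool.Agent.ACX (H34.Num8)

/-- from the last configuration to the hypotheses of `EdqStmt` -/
theorem end_edq {d : ℕ} (V : AND2B.Env d) {c C K δ ε : ℝ} (hd : 3 ≤ d) (hc : 0 < c) (hC : 1 ≤ C)
    (hth : 1 / 2 ≤ V.th) (hth1 : V.th < 1) (hw : 0 < V.w) (hS : V.Sc)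
    (hE : ∀ (μ j R : ℕ) (T : Cfg (Tor d (2 ^ μ))) (E e₀ f D₀ D₁ : ℝ) (m₀ : ℂ)
      (U : Tor d (2 ^ μ) → ℝ),
    0 < e₀ → 0 < f → e₀ ≤ δ * f → c / 2 ≤ m₀.im → ‖m₀‖ ≤ 2 * C →
    (∀ x, (T.s x : ℝ) = 0 ∨ (T.s x : ℝ) = f) →
    (∀ x, (T.s x : ℝ) = f → ‖T.mb x - m₀‖ ≤ δ ∧ ‖AND2B.net E e₀ T x x - T.mb x‖ ≤ δ) →
    (∀ x, (T.s x : ℝ) = f → U x = T.V x - f * m₀.re) →
    (∀ x, (T.s x : ℝ) = 0 → |U x - T.V x| ≤ 2 * C * f) →
    (∃ (εl εu : Tor d (2 ^ μ) → ℝ) (bl bu : LTG.Bd d (2 ^ μ) → ℝ),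
      LTG.Fm LTG.sT LTG.tT (Al T) (ww e₀ T) εl εu bl bu (LTG.qd (Ef E e₀ T)) ∧
      (∀ x ∈ Al T, 0 ≤ εl x ∧ εl x ≤ δ) ∧ ∀ e, D₀ ≤ bl e ∧ bu e ≤ D₁) →
    0 < D₀ → j + 1 ≤ μ → 1 ≤ R → K * f * 4 ^ j ≤ D₀ → K * 2 ^ j ≤ 2 ^ μ → K * D₁ ≤ f * R ^ 2 →
    2 * ((Finset.univ.filter fun x => (T.s x : ℝ) = 0).card : ℝ) ≤ ((2 : ℝ) ^ μ) ^ d →
    (∀ [DecidablePred (Bad U E (f * m₀.im) (1 / K) ε (2 ^ j) R)],
    ((Finset.univ.filter fun x => Bad U E (f * m₀.im) (1 / K) ε (2 ^ j) R x).card : ℝ) ≤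
      ((Finset.univ.filter fun x => (T.s x : ℝ) = 0).card : ℝ) + ε * ((2 : ℝ) ^ μ) ^ d +
        K * ∑ b ∈ Finset.univ.filter fun x => (T.s x : ℝ) = 0, (Gt U E (f * m₀.im) b b).im))
    (h1 : 3 * (V.w : ℝ) ^ (1 / 20 : ℝ) ≤ δ / 2)
    (h2 : ((V.cl (V.kk (V.N + 1)) : ℝ)) ^ (1 / 8 : ℝ) ≤ δ)
    (h3 : 2 * ((V.cl (V.kk (V.N + 1)) : ℝ)) ^ (AHH.ka V / 2) ≤ δ)
    (h4 : 3 * (V.w : ℝ) ^ (AHH.ka V / 4) ≤ 1 / 2)
    (he0 : 0 < V.e₀) (he1 : V.e₀ ≤ δ * V.cl (V.kk (V.N + 1)))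
    (m₀ : ℂ) (hm1 : c / 2 ≤ m₀.im) (hm2 : ‖m₀‖ ≤ 2 * C) (hm3 : ‖V.m - m₀‖ ≤ δ / 2)
    (j R : ℕ) (hj : j + 1 ≤ V.μ) (hR : 1 ≤ R)
    (hj1 : K * V.cl (V.kk (V.N + 1)) * 4 ^ j ≤ c * (V.w : ℝ) ^ (8 * AHH.es - 1) / 2)
    (hj2 : K * 2 ^ j ≤ (2 : ℝ) ^ V.μ)
    (hR1 : K * (8 * C ^ 3 / V.w) ≤ V.cl (V.kk (V.N + 1)) * (R : ℝ) ^ 2)
    (T : Cfg V.X) (run : Finset V.X) (n : ℕ)
    (hT : St (toE V c C) (bud V) n (V.kk (V.N + 1)) T run)
    (hFc : V.Fc (V.N + 1) (V.kk (V.N + 1)) ∅ T run) (hdead : ∀ x, x ∉ run → T.s x = 0)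
    : ∀ [DecidablePred (Bad T.V (V.E + V.cl (V.kk (V.N + 1)) * m₀.re)
      (V.cl (V.kk (V.N + 1)) * m₀.im) (1 / K) ε (2 ^ j) R)],
    ((Finset.univ.filter fun x => Bad T.V (V.E + V.cl (V.kk (V.N + 1)) * m₀.re)
      (V.cl (V.kk (V.N + 1)) * m₀.im) (1 / K) ε (2 ^ j) R x).card : ℝ) ≤
      ε * ((2 : ℝ) ^ V.μ) ^ d + ∑ b ∈ Finset.univ \ run,
        (1 + K * psi (V.E + V.cl (V.kk (V.N + 1)) * m₀.re) (V.cl (V.kk (V.N + 1)) * m₀.im)
          T.V b) := by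
  classical
  have hth0 : 0 < V.th := lt_of_lt_of_le (by norm_num) hth
  set f : ℝ≥0 := V.cl (V.kk (V.N + 1)) with hf
  have hfp : 0 < f := AHH.cl_pos V hw hth0 _
  have hfp' : (0 : ℝ) < f := by exact_mod_cast hfp
  have hrun : ∀ x ∈ run, T.s x = f := by
    intro x hx
    have := hFc.runs x hx
    rwa [if_neg (Finset.notMem_empty x)] at this
  have hs : ∀ x, (T.s x : ℝ) = f ↔ x ∈ run := by
    intro x
    constructor
    · intro h
      by_contra hx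
      rw [hdead x hx] at h
      push_cast at h
      exact absurd h.symm hfp'.ne'
    · intro hx
      rw [hrun x hx]
  have hs0 : ∀ x, (T.s x : ℝ) = 0 ↔ x ∉ run := by
    intro x
    constructor
    · intro h hx
      rw [hrun x hx] at h
      exact hfp'.ne' h
    · intro hx
      rw [hdead x hx]
      rfl
  have hal : ∀ x, x ∈ Al T ↔ x ∈ run := by
    intro x
    constructor
    · intro h
      have h5 : 0 < T.s x := by simpa [Al] using h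
      by_contra hx
      rw [hdead x hx] at h5
      exact lt_irrefl _ h5
    · exact fun hx => hT.alv hx
  have hfilt : (Finset.univ.filter fun x => (T.s x : ℝ) = 0) = Finset.univ \ run := by
    ext x
    rw [Finset.mem_filter, Finset.mem_sdiff, hs0]
  have hdel : (AHH.qq V n (V.kk (V.N + 1))).del ≤ δ / 2 :=
    ((AHH.gr_bd V hth1.le (by norm_num : (0 : ℝ) < 1 / 20) n _).2).trans h1
  have hrho0 : 0 ≤ (AHH.qq V n (V.kk (V.N + 1))).rho := by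
    have hka : 0 < AHH.ka V / 4 := by
      unfold AHH.ka
      positivity
    exact (Real.rpow_nonneg (NNReal.coe_nonneg _) _).trans (AHH.gr_bd V hth1.le hka n _).1
  have hrho : (AHH.qq V n (V.kk (V.N + 1))).rho ≤ 1 / 2 := by
    have hka : 0 < AHH.ka V / 4 := by
      unfold AHH.ka
      positivity
    exact ((AHH.gr_bd V hth1.le hka n _).2).trans h4
  have heps : (AHH.qq V n (V.kk (V.N + 1))).eps ≤ δ := by
    refine le_trans ?_ h3
    show (V.cl (V.kk (V.N + 1)) : ℝ) ^ (AHH.ka V / 2) * (2 - V.sg n ^ AHH.ka V) ≤ _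
    have h5 : 0 ≤ V.sg n ^ AHH.ka V := Real.rpow_nonneg (NNReal.coe_nonneg _) _
    have h6 : 0 ≤ (V.cl (V.kk (V.N + 1)) : ℝ) ^ (AHH.ka V / 2) :=
      Real.rpow_nonneg (NNReal.coe_nonneg _) _
    nlinarith
  obtain ⟨εl, εu, bl, bu, hFm, hεl, hb⟩ := hT.frm
  have hD₀ : 0 < c * (V.w : ℝ) ^ (8 * AHH.es - 1) / 2 := by
    have : (0 : ℝ) < V.w := by exact_mod_cast hw
    positivity
  have hw' : (0 : ℝ) < V.w := by exact_mod_cast hw
  have h := hE V.μ j R T V.E V.e₀ f (c * (V.w : ℝ) ^ (8 * AHH.es - 1) / 2) (8 * C ^ 3 / V.w) m₀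
    (fun x => T.V x - f * m₀.re) he0 hfp' he1 hm1 hm2
    (fun x => by
      by_cases hx : x ∈ run
      · exact Or.inr ((hs x).2 hx)
      · exact Or.inl ((hs0 x).2 hx))
    (fun x hx => ?_) (fun x _ => rfl) (fun x _ => ?_) ⟨εl, εu, bl, bu, hFm, ?_, ?_⟩ hD₀ hj hR hj1
    hj2 hR1 ?_
  · intro inst
    have h7 := h
    rw [hfilt] at h7
    refine le_trans (Nat.cast_le.2 (Finset.card_le_card fun x hx => ?_)) (h7.trans (le_of_eq ?_))
    · have hx2 := (@Finset.mem_filter _ _ inst _ _).1 hx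
      refine Finset.mem_filter.2 ⟨Finset.mem_univ _, ?_⟩
      rw [bad_shift]
      exact hx2.2
    have e2 : ∀ b, (Gt (fun x => T.V x - f * m₀.re) V.E (f * m₀.im) b b).im =
        psi (V.E + f * m₀.re) (f * m₀.im) T.V b := by
      intro b
      rw [gt_shift]
      rfl
    simp only [e2]
    rw [Finset.sum_add_distrib, Finset.sum_const, nsmul_eq_mul, mul_one, ← Finset.mul_sum]
    ring
  · have hx' := (hs x).1 hx
    have hg := hT.gau x ((hal x).2 hx')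
    refine ⟨?_, ?_⟩
    · have h5 : ‖T.mb x - V.m‖ ≤ δ / 2 := hg.2.2.trans hdel
      calc ‖T.mb x - m₀‖ = ‖(T.mb x - V.m) + (V.m - m₀)‖ := by congr 1; ring
        _ ≤ ‖T.mb x - V.m‖ + ‖V.m - m₀‖ := norm_add_le _ _
        _ ≤ δ := by linarith
    · exact (hT.mis x hx').trans h2
  · have h5 : |m₀.re| ≤ 2 * C := (Complex.abs_re_le_norm m₀).trans hm2
    have e : T.V x - (f : ℝ) * m₀.re - T.V x = -((f : ℝ) * m₀.re) := by ring
    rw [e, abs_neg, abs_mul, abs_of_pos hfp', mul_comm]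
    gcongr
  · intro x hx
    have h5 := hεl x hx
    refine ⟨h5.1, h5.2.1.trans ?_⟩
    simp only [if_pos ((hal x).1 hx)]
    exact heps
  · intro e
    have h5 := hb e
    have hD : (toE V c C).D₀ = c * (V.w : ℝ) ^ (8 * AHH.es - 1) := rfl
    have hD1 : (toE V c C).D₁ = 4 * C ^ 3 / V.w := rfl
    rw [hD, hD1] at h5
    have h6 : 0 < c * (V.w : ℝ) ^ (8 * AHH.es - 1) := by positivity
    have h7 : 0 < 4 * C ^ 3 / (V.w : ℝ) := by positivity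
    have h8 : ((bud V).q n (V.kk (V.N + 1))).rho ≤ 1 / 2 := hrho
    constructor
    · refine le_trans ?_ h5.1
      nlinarith
    · refine h5.2.2.trans ?_
      have e : (8 : ℝ) * C ^ 3 / V.w = 4 * C ^ 3 / V.w * 2 := by ring
      rw [e]
      nlinarith
  · have h5 := ACX.H48.dead_fc hd hS (le_refl (V.N + 1)) hFc
    have h6 : (Finset.univ.filter fun x => (T.s x : ℝ) = 0) =
        Finset.univ.filter fun x => T.s x = 0 := by
      ext x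
      rw [Finset.mem_filter, Finset.mem_filter]
      norm_cast
    rw [h6]
    have h7 : (Fintype.card (Tor d (2 ^ V.μ)) : ℝ) = ((2 : ℝ) ^ V.μ) ^ d := by
      rw [Fintype.card_fun, ZMod.card, Fintype.card_fin]
      push_cast
      rfl
    have h8 : (16 : ℝ) * ((Finset.univ.filter fun x => T.s x = 0).card : ℝ) ≤
        (Fintype.card (Tor d (2 ^ V.μ)) : ℝ) := by exact_mod_cast h5
    rw [h7] at h8
    have h9 : (0 : ℝ) ≤ ((Finset.univ.filter fun x => T.s x = 0).card : ℝ) := Nat.cast_nonneg _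
    linarith

end Pool.Agent.QDA.H16
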