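import Pool.Agent.Helper16_QDA.Phq

/-!
# QDA, row PHQ: the protocol applied to the bad sites, one environment: the theorem `phqE`
-/

set_option autoImplicit false

open MeasureTheory ProbabilityTheory Filter

open scoped ENNReal BigOperators NNReal

noncomputable section

namespace Pool.Agent.QDA.H16

open Pool.Agent.BED (Tor gau tr)
open Pool.Agent.ACX.H38 (gr_rs gr_cont' psi psi_nonneg psi_le psi_meas psi_int2 psi_integrable)
open Pool.Agent.AND2B (Hr WL)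
open Pool.Agent.ANP (Cfg gm)
open Pool.Agent.AHH (toE bud Al St ww Ef FB)
open Pool.Agent.ACX.CORE (Fields core1)
open Pool.Agent.ACX (H34.Num8)

open Classical in
/-- the number of bad sites is measurable -/
theorem card_meas {d M : ℕ} [NeZero M] (E : ℝ) {η : ℝ} (hη : 0 < η) (c ε : ℝ) (r R : ℕ) :
    Measurable fun U : Tor d M → ℝ =>
      ((Finset.univ.filter fun x : Tor d M => Bad U E η c ε r R x).card : ℝ) := by
  have h : (fun U : Tor d M → ℝ =>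
      ((Finset.univ.filter fun x : Tor d M => Bad U E η c ε r R x).card : ℝ)) = fun U =>
      ∑ x : Tor d M, ({U | Bad U E η c ε r R x} : Set (Tor d M → ℝ)).indicator
        (fun _ => (1 : ℝ)) U := by
    funext U
    rw [Finset.card_filter]
    push_cast
    refine Finset.sum_congr rfl fun x _ => ?_
    by_cases h : Bad U E η c ε r R x
    · rw [if_pos h, Set.indicator_of_mem (show U ∈ {U | Bad U E η c ε r R x} from h)]
    · rw [if_neg h, Set.indicator_of_notMem (show U ∉ {U | Bad U E η c ε r R x} from h)]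
  rw [h]
  exact Finset.measurable_fun_sum _ fun x _ => measurable_const.indicator (bad_meas E hη c ε r R x)

open Classical in
/-- PHQ, ONE ENVIRONMENT -/
theorem phqE (hE : EdqStmt) (d : ℕ) (c C ε : ℝ) (hd : 3 ≤ d) (hc : 0 < c) (hc1 : c ≤ 1)
    (hC : 1 ≤ C) (hε : 0 < ε) :
    ∃ K δ : ℝ, 1 ≤ K ∧ 0 < δ ∧ ∀ (a : ℝ) (V : AND2B.Env d) (δ₁ : ℝ) (π c' W : ℕ → ℝ),
      1 / 2 ≤ V.th → V.th < 1 → 0 < V.w → V.Sc → 1 ≤ V.N →
      Fields (AHH.Z d a AHH.es c C) V →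
      H34.Num8 d V.th V.J V.β V.w V.N V.μ V.kk V.l V.r 1 (2 * K) π c' W →
      ∑ j ∈ Finset.range (V.G.N + 2), W j *
        ∑ B ∈ ({B | V.G.bl j B = B} : Finset V.X), ANP.H72.QQ V.G.ch V.G.J (fun i => π i.1) j B ≤ δ₁ →
      0 ≤ δ₁ →
      3 * (V.w : ℝ) ^ (1 / 20 : ℝ) ≤ δ / 2 →
      ((V.cl (V.kk (V.N + 1)) : ℝ)) ^ (1 / 8 : ℝ) ≤ δ →
      2 * ((V.cl (V.kk (V.N + 1)) : ℝ)) ^ (AHH.ka V / 2) ≤ δ →
      3 * (V.w : ℝ) ^ (AHH.ka V / 4) ≤ 1 / 2 →
      0 < V.e₀ → V.e₀ ≤ δ * V.cl (V.kk (V.N + 1)) →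
      ∀ m₀ : ℂ, c / 2 ≤ m₀.im → ‖m₀‖ ≤ 2 * C → ‖V.m - m₀‖ ≤ δ / 2 →
      ∀ j R : ℕ, j + 1 ≤ V.μ → 1 ≤ R →
      K * V.cl (V.kk (V.N + 1)) * 4 ^ j ≤ c * (V.w : ℝ) ^ (8 * AHH.es - 1) / 2 →
      K * 2 ^ j ≤ (2 : ℝ) ^ V.μ →
      K * (8 * C ^ 3 / V.w) ≤ V.cl (V.kk (V.N + 1)) * (R : ℝ) ^ 2 →
      ∀ ρ₀ : ℝ, (∀ V₀ : V.X → ℝ, (∀ x, |V₀ x| ≤ ρ₀) → ∃ m₁ : V.X → ℂ,
        (AHH.Z d a AHH.es c C).HS V 0 0 ⟨V₀, fun _ => V.cl 0, m₁⟩ Finset.univ) →
      ∫⁻ U, ENNReal.ofReal (((Finset.univ.filter fun x : Tor d (2 ^ V.μ) =>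
          Bad U (V.E + V.cl (V.kk (V.N + 1)) * m₀.re) (V.cl (V.kk (V.N + 1)) * m₀.im) (1 / K) ε
            (2 ^ j) R x).card : ℝ) / ((2 : ℝ) ^ V.μ) ^ d) ∂(gau d (2 ^ V.μ) V.w) ≤
        ENNReal.ofReal (ε + δ₁ + (gm (fun _ : V.X => 0)
          (fun _ => V.cl (V.kk (V.N + 1)))).real {V₀ | ∃ x, ρ₀ < |V₀ x|}) +
        gau d (2 ^ V.μ) V.w {U | ¬ WL V.E V.L U} := by
  obtain ⟨K, δ, hK, hδ, h⟩ := hE d (c / 2) (2 * C) ε hd (by positivity) (by linarith)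
    (by linarith) hε
  refine ⟨K, δ, hK, hδ, ?_⟩
  intro a V δ₁ π c' W hth hth1 hw hS hN hF hn hsum hδ₁ h1 h2 h3 h4 he0 he1 m₀ hm1 hm2 hm3 j R hj
    hR hj1 hj2 hR1 ρ₀ hini
  have hth0 : 0 < V.th := lt_of_lt_of_le (by norm_num) hth
  have hfp : 0 < V.cl (V.kk (V.N + 1)) := AHH.cl_pos V hw hth0 _
  have hfp' : (0 : ℝ) < V.cl (V.kk (V.N + 1)) := by exact_mod_cast hfp
  have hm0 : 0 < m₀.im := lt_of_lt_of_le (by positivity) hm1
  have hη : 0 < (V.cl (V.kk (V.N + 1)) : ℝ) * m₀.im := mul_pos hfp' hm0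
  have hK0 : 0 < K := lt_of_lt_of_le one_pos hK
  have hX : (0 : ℝ) < ((2 : ℝ) ^ V.μ) ^ d := by positivity
  have hXc : (Fintype.card (Tor d (2 ^ V.μ)) : ℝ) = ((2 : ℝ) ^ V.μ) ^ d := by
    rw [Fintype.card_fun, ZMod.card, Fintype.card_fin]
    push_cast
    rfl
  have hcard : ∀ U : Tor d (2 ^ V.μ) → ℝ, ((Finset.univ.filter fun x : Tor d (2 ^ V.μ) =>
          Bad U (V.E + V.cl (V.kk (V.N + 1)) * m₀.re) (V.cl (V.kk (V.N + 1)) * m₀.im) (1 / K) ε
            (2 ^ j) R x).card : ℝ) / ((2 : ℝ) ^ V.μ) ^ d ≤ 1 := by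
    intro U
    rw [div_le_one hX, ← hXc]
    exact_mod_cast Finset.card_le_univ _
  have hcm := card_meas (d := d) (M := 2 ^ V.μ) (V.E + V.cl (V.kk (V.N + 1)) * m₀.re) hη (1 / K) ε
    (2 ^ j) R
  have hWm : MeasurableSet {U : Tor d (2 ^ V.μ) → ℝ | WL V.E V.L U} :=
    AND2B.H99.msw d (2 ^ V.μ) V.E V.L
  have key := core1 (AHH.Z d a AHH.es c C) V hth hth1 hw hS hN hF (ca := 1) (cb := 2 * K) hn hsum
    (K := (1 + K * (1 / (V.cl (V.kk (V.N + 1)) * m₀.im))) / ((2 : ℝ) ^ V.μ) ^ d) (e := ε)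
    (fun U => ({U : Tor d (2 ^ V.μ) → ℝ | WL V.E V.L U}).indicator
      (fun U => ((Finset.univ.filter fun x : Tor d (2 ^ V.μ) =>
          Bad U (V.E + V.cl (V.kk (V.N + 1)) * m₀.re) (V.cl (V.kk (V.N + 1)) * m₀.im) (1 / K) ε
            (2 ^ j) R x).card : ℝ) / ((2 : ℝ) ^ V.μ) ^ d) U)
    (fun x U => (1 + K * psi (V.E + V.cl (V.kk (V.N + 1)) * m₀.re)
      (V.cl (V.kk (V.N + 1)) * m₀.im) U x) / ((2 : ℝ) ^ V.μ) ^ d)
    ((hcm.div_const _).indicator hWm)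
    (fun U => by
      refine ⟨Set.indicator_nonneg (fun _ _ => by positivity) U, ?_⟩
      by_cases hU : U ∈ {U : Tor d (2 ^ V.μ) → ℝ | WL V.E V.L U}
      · rw [Set.indicator_of_mem hU]
        exact hcard U
      · rw [Set.indicator_of_notMem hU]
        exact zero_le_one)
    (fun x => ((measurable_const.add (measurable_const.mul (psi_meas _ hη x))).div_const _))
    (fun x U => by
      have h5 := psi_nonneg (V.E + V.cl (V.kk (V.N + 1)) * m₀.re) hη U x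
      have h6 := psi_le (V.E + V.cl (V.kk (V.N + 1)) * m₀.re) hη U x
      refine ⟨by positivity, ?_⟩
      gcongr)
    hε.le hδ₁
    (fun x a' r hr => by
      have h5 := psi_int2 (V.E + V.cl (V.kk (V.N + 1)) * m₀.re) hη a' r x hr
      have h6 : ∫ U, (1 + K * psi (V.E + V.cl (V.kk (V.N + 1)) * m₀.re)
          (V.cl (V.kk (V.N + 1)) * m₀.im) U x) / ((2 : ℝ) ^ V.μ) ^ d ∂(gm a' r) =
          (1 + K * ∫ U, psi (V.E + V.cl (V.kk (V.N + 1)) * m₀.re)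
          (V.cl (V.kk (V.N + 1)) * m₀.im) U x ∂(gm a' r)) / ((2 : ℝ) ^ V.μ) ^ d := by
        rw [integral_div, integral_add (integrable_const _)
          ((psi_integrable _ hη x _).const_mul K), integral_const_mul, integral_const,
          probReal_univ, one_smul]
      rw [h6]
      refine div_le_div_of_nonneg_right ?_ hX.le
      have h7 := mul_le_mul_of_nonneg_left h5 hK0.le
      have h8 : 2 * K / Real.sqrt (r x) = K * (2 / Real.sqrt (r x)) := by ring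
      rw [h8]
      linarith)
    (fun U hU => Set.indicator_of_notMem hU _)
    ρ₀ hini
    (fun T run hT hFc hdead => by
      have h5 := end_edq V (K := K) (δ := δ) (ε := ε) hd hc hC hth hth1 hw hS
        (fun μ j R T E e₀ f D₀ D₁ m₀ U a1 a2 a3 a4 a5 a6 a7 a8 a9 a10 a11 a12 a13 a14 a15 a16
          a17 inst => by
            have h6 := h μ j R T E e₀ f D₀ D₁ m₀ U a1 a2 a3 a4 a5 a6 a7 a8 a9 a10 a11 a12 a13
              a14 a15 a16 a17
            refine le_trans (Nat.cast_le.2 (Finset.card_le_card fun x hx => ?_)) h6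
            have hx2 := (@Finset.mem_filter _ _ inst _ _).1 hx
            exact (@Finset.mem_filter _ _ (fun _ => Classical.propDecidable _) _ _).2
              ⟨Finset.mem_univ _, hx2.2⟩)
        h1 h2 h3 h4 he0 he1 m₀ hm1 hm2 hm3 j R hj hR hj1 hj2 hR1 T run (V.N + 1) hT hFc hdead
      have h7 : ∑ x ∈ Finset.univ \ run, (1 + K * psi (V.E + V.cl (V.kk (V.N + 1)) * m₀.re)
          (V.cl (V.kk (V.N + 1)) * m₀.im) T.V x) / ((2 : ℝ) ^ V.μ) ^ d =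
          (∑ x ∈ Finset.univ \ run, (1 + K * psi (V.E + V.cl (V.kk (V.N + 1)) * m₀.re)
          (V.cl (V.kk (V.N + 1)) * m₀.im) T.V x)) / ((2 : ℝ) ^ V.μ) ^ d := by
        rw [Finset.sum_div]
      rw [h7]
      refine le_trans (Set.indicator_le_self' (fun _ _ => by positivity) T.V) ?_
      rw [div_le_iff₀ hX, add_mul, div_mul_cancel₀ _ hX.ne']
      exact h5)
  have hprob : IsProbabilityMeasure (gau d (2 ^ V.μ) V.w) := by
    unfold gau
    infer_instance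
  have hgg : gm (fun _ : V.X => 0) (fun _ => V.w) = gau d (2 ^ V.μ) V.w := rfl
  rw [hgg] at key
  have hφm : Measurable fun U : Tor d (2 ^ V.μ) → ℝ =>
      ({U : Tor d (2 ^ V.μ) → ℝ | WL V.E V.L U}).indicator
      (fun U => ((Finset.univ.filter fun x : Tor d (2 ^ V.μ) =>
          Bad U (V.E + V.cl (V.kk (V.N + 1)) * m₀.re) (V.cl (V.kk (V.N + 1)) * m₀.im) (1 / K) ε
            (2 ^ j) R x).card : ℝ) / ((2 : ℝ) ^ V.μ) ^ d) U := (hcm.div_const _).indicator hWm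
  have hφ0 : ∀ U : Tor d (2 ^ V.μ) → ℝ, 0 ≤ ({U : Tor d (2 ^ V.μ) → ℝ | WL V.E V.L U}).indicator
      (fun U => ((Finset.univ.filter fun x : Tor d (2 ^ V.μ) =>
          Bad U (V.E + V.cl (V.kk (V.N + 1)) * m₀.re) (V.cl (V.kk (V.N + 1)) * m₀.im) (1 / K) ε
            (2 ^ j) R x).card : ℝ) / ((2 : ℝ) ^ V.μ) ^ d) U :=
    fun U => Set.indicator_nonneg (fun _ _ => by positivity) U
  have hφ1 : ∀ U : Tor d (2 ^ V.μ) → ℝ, ({U : Tor d (2 ^ V.μ) → ℝ | WL V.E V.L U}).indicator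
      (fun U => ((Finset.univ.filter fun x : Tor d (2 ^ V.μ) =>
          Bad U (V.E + V.cl (V.kk (V.N + 1)) * m₀.re) (V.cl (V.kk (V.N + 1)) * m₀.im) (1 / K) ε
            (2 ^ j) R x).card : ℝ) / ((2 : ℝ) ^ V.μ) ^ d) U ≤ 1 := by
    intro U
    by_cases hU : U ∈ {U : Tor d (2 ^ V.μ) → ℝ | WL V.E V.L U}
    · rw [Set.indicator_of_mem hU]
      exact hcard U
    · rw [Set.indicator_of_notMem hU]
      exact zero_le_one
  have hint : Integrable (fun U : Tor d (2 ^ V.μ) → ℝ =>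
      ({U : Tor d (2 ^ V.μ) → ℝ | WL V.E V.L U}).indicator
      (fun U => ((Finset.univ.filter fun x : Tor d (2 ^ V.μ) =>
          Bad U (V.E + V.cl (V.kk (V.N + 1)) * m₀.re) (V.cl (V.kk (V.N + 1)) * m₀.im) (1 / K) ε
            (2 ^ j) R x).card : ℝ) / ((2 : ℝ) ^ V.μ) ^ d) U) (gau d (2 ^ V.μ) V.w) := by
    refine Integrable.of_bound hφm.aestronglyMeasurable 1 (Filter.Eventually.of_forall fun U => ?_)
    rw [Real.norm_eq_abs, abs_of_nonneg (hφ0 U)]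
    exact hφ1 U
  refine (lintegral_mono (g := fun U : Tor d (2 ^ V.μ) → ℝ => ENNReal.ofReal
    (({U : Tor d (2 ^ V.μ) → ℝ | WL V.E V.L U}).indicator
      (fun U => ((Finset.univ.filter fun x : Tor d (2 ^ V.μ) =>
          Bad U (V.E + V.cl (V.kk (V.N + 1)) * m₀.re) (V.cl (V.kk (V.N + 1)) * m₀.im) (1 / K) ε
            (2 ^ j) R x).card : ℝ) / ((2 : ℝ) ^ V.μ) ^ d) U) +
      ({U : Tor d (2 ^ V.μ) → ℝ | ¬ WL V.E V.L U}).indicator 1 U) fun U => ?_).trans ?_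
  · beta_reduce
    by_cases hU : U ∈ {U : Tor d (2 ^ V.μ) → ℝ | WL V.E V.L U}
    · rw [Set.indicator_of_mem hU]
      exact le_self_add
    · rw [Set.indicator_of_mem (show U ∈ {U : Tor d (2 ^ V.μ) → ℝ | ¬ WL V.E V.L U} from hU)]
      refine le_trans ?_ le_add_self
      rw [Pi.one_apply, ← ENNReal.ofReal_one]
      exact ENNReal.ofReal_le_ofReal (hcard U)
  · have hWc : MeasurableSet {U : Tor d (2 ^ V.μ) → ℝ | ¬ WL V.E V.L U} := hWm.compl
    rw [lintegral_add_right _ (measurable_one.indicator hWc), lintegral_indicator_one hWc]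
    refine add_le_add ?_ le_rfl
    rw [← ofReal_integral_eq_lintegral_ofReal hint (Filter.Eventually.of_forall hφ0)]
    exact ENNReal.ofReal_le_ofReal key

end Pool.Agent.QDA.H16
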