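import Pool.Agent.Helper48_ACX.P6
import Pool.Agent.Helper99_AND2B.WLP

/-!
# QDA: the tail of the start, uniform in `w`
-/

set_option autoImplicit false

open MeasureTheory ProbabilityTheory Filter

open scoped ENNReal BigOperators NNReal

noncomputable section

namespace Pool.Agent.QDA.H16

open Pool.Agent.BED (Tor gau)
open Pool.Agent.ANP (gm)

/-- THE TAIL OF THE START: `f ≤ w^5`, `2^μ ≤ f^(-C)`, `w ≤ w₀ (d, C, p)` -/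
theorem tail_w (d : ℕ) (C p : ℝ) (hp : 0 < p) : ∃ w₀ : ℝ, 0 < w₀ ∧ w₀ ≤ 1 ∧
    ∀ (w f : ℝ≥0) (μ : ℕ), 0 < w → (w : ℝ) ≤ w₀ → 0 < f → (f : ℝ) ≤ (w : ℝ) ^ 5 →
      (2 ^ μ : ℝ) ≤ (f : ℝ) ^ (-C) →
      (gm (fun _ : Tor d (2 ^ μ) => 0) (fun _ => f)).real {V₀ | ∃ x, (w : ℝ) ^ 2 < |V₀ x|} ≤ p := by
  have h1 := AND.Num.small_exp_pow 2 (1 / 2) (1 / 5) (C * d) 1 (by norm_num) (by norm_num)
  have h2 := AND.Num.small_rpow_le p 1 hp one_pos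
  obtain ⟨t₁, ht, ht1, h⟩ := (h1.and h2).ex
  refine ⟨t₁, ht, ht1, fun w f μ hw hwt hf hfw hμ => ?_⟩
  have hf0 : (0 : ℝ) < f := by exact_mod_cast hf
  have hw0 : (0 : ℝ) < w := by exact_mod_cast hw
  have hw1 : (w : ℝ) ≤ 1 := hwt.trans ht1
  have hft : (f : ℝ) ≤ t₁ := hfw.trans ((pow_le_of_le_one hw0.le hw1 (by norm_num)).trans hwt)
  obtain ⟨h3, h4⟩ := h f hf0 hft
  have h5 := IR.H85A.gau_tail (d := d) (M := 2 ^ μ) hf (s := (w : ℝ) ^ 2) (by positivity)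
  have hset : {V₀ : Tor d (2 ^ μ) → ℝ | ∃ x, (w : ℝ) ^ 2 < |V₀ x|} =
      {V | ¬ ∀ x, |V x| ≤ (w : ℝ) ^ 2} := by
    ext V
    simp only [Set.mem_ofPred_eq, not_forall, not_le]
  have e1 : (((2 ^ μ : ℕ) : ℝ)) ^ d ≤ (f : ℝ) ^ (-(C * d)) := by
    push_cast
    calc ((2 : ℝ) ^ μ) ^ d ≤ ((f : ℝ) ^ (-C)) ^ d := pow_le_pow_left₀ (by positivity) hμ d
      _ = (f : ℝ) ^ (-(C * d)) := by
          rw [← Real.rpow_natCast, ← Real.rpow_mul hf0.le]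
          congr 1
          ring
  have e2 : (f : ℝ) ^ (4 / 5 : ℝ) ≤ (w : ℝ) ^ 4 := by
    calc (f : ℝ) ^ (4 / 5 : ℝ) ≤ ((w : ℝ) ^ 5) ^ (4 / 5 : ℝ) :=
          Real.rpow_le_rpow hf0.le hfw (by norm_num)
      _ = (w : ℝ) ^ 4 := by
          rw [← Real.rpow_natCast, ← Real.rpow_mul hw0.le, ← Real.rpow_natCast]
          congr 1
          norm_num
  have e3 : 1 / 2 * (f : ℝ) ^ (-(1 / 5) : ℝ) ≤ ((w : ℝ) ^ 2) ^ 2 / (2 * (f : ℝ)) := by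
    rw [le_div_iff₀ (by positivity)]
    have e4 : (f : ℝ) ^ (4 / 5 : ℝ) = (f : ℝ) ^ (-(1 / 5) : ℝ) * f := by
      rw [← Real.rpow_add_one hf0.ne']
      congr 1
      norm_num
    have e5 : ((w : ℝ) ^ 2) ^ 2 = (w : ℝ) ^ 4 := by ring
    rw [e5]
    rw [e4] at e2
    linarith
  have e6 : (((2 ^ μ : ℕ) : ℝ)) ^ d * (2 * Real.exp (-(((w : ℝ) ^ 2) ^ 2 / (2 * (f : ℝ))))) ≤ p := by
    calc (((2 ^ μ : ℕ) : ℝ)) ^ d * (2 * Real.exp (-(((w : ℝ) ^ 2) ^ 2 / (2 * (f : ℝ))))) ≤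
          (f : ℝ) ^ (-(C * d)) * (2 * Real.exp (-(1 / 2 * (f : ℝ) ^ (-(1 / 5) : ℝ)))) := by
          gcongr
      _ = 2 * (f : ℝ) ^ (-(C * d)) * Real.exp (-(1 / 2 * (f : ℝ) ^ (-(1 / 5) : ℝ))) := by ring
      _ ≤ (f : ℝ) ^ (1 : ℝ) := h3
      _ ≤ p := h4
  rw [hset]
  have h6 : gm (fun _ : Tor d (2 ^ μ) => 0) (fun _ => f) {V | ¬ ∀ x, |V x| ≤ (w : ℝ) ^ 2} ≤
      ENNReal.ofReal p := h5.trans (ENNReal.ofReal_le_ofReal e6)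
  rw [measureReal_def]
  exact ENNReal.toReal_le_of_le_ofReal hp.le h6

/-- the ellipticity `WL`, one torus -/
theorem wl_ex (d M : ℕ) [NeZero M] (E : ℝ) (v : ℝ≥0) (hv : 0 < v) {p : ℝ} (hp : 0 < p) :
    ∃ L : ℝ, 1 ≤ L ∧ gau d M v {U | ¬ AND2B.WL E L U} ≤ ENNReal.ofReal p :=
  AND2B.H99.wlp d M E p v hv.ne' hp

end Pool.Agent.QDA.H16
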